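import Pool.Agent.W973.CES.Defs

/-!
# CES-MEM (for helper973): membership in NP
-/

set_option autoImplicit false

namespace Pool.Agent.W904.CES

open Pool.Agent.W973.CES Pool.Agent.NPC

theorem size_le (x : ℕ) : x.size ≤ x := by
  rw [Nat.size_le]
  exact Nat.lt_two_pow_self

theorem list_le (l : List ℕ) (n : ℕ) (h1 : l.length = n) (h2 : ∀ x ∈ l, x ≤ n) :
    sz l ≤ n * (4 * n + 2) + 1 := by
  have h := sz_le_length_mul l (4 * n + 1) (fun a ha => by
    have h3 := sz_nat_le a
    have h4 := size_le a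
    have h5 := h2 a ha
    omega)
  rw [h1] at h
  exact h

theorem mem (h1 : S_VER) (h2 : S_CERT) (h3 : S_PVER) : S_MEM := by
  refine inNPP_of (β := Cert) (R := verB) h3
    (3 * (Polynomial.X * (4 * Polynomial.X + 2) + 1) + 2) fun I => ?_
  constructor
  · rintro ⟨hV, M, hM⟩
    obtain ⟨rm, rw, h4, h5, h6, h7, h8, h9, h10⟩ := h2 I M hV hM
    refine ⟨(M, rm, rw), ?_, h4⟩
    have g1 := list_le M _ h5 h8
    have g2 := list_le rm _ h6 h9
    have g3 := list_le rw _ h7 h10
    have g4 : I.1.length ≤ sz I := by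
      have g5 := length_lt_sz I.1
      have g6 : sz I = sz I.1 + sz I.2 + 1 := sz_pair I.1 I.2
      omega
    have g7 : sz (M, rm, rw) = sz M + (sz rm + sz rw + 1) + 1 := by
      rw [sz_pair, sz_pair]
    have g8 : I.1.length * (4 * I.1.length + 2) ≤ sz I * (4 * sz I + 2) :=
      Nat.mul_le_mul g4 (by omega)
    rw [g7]
    simp only [Polynomial.eval_add, Polynomial.eval_mul, Polynomial.eval_X, Polynomial.eval_ofNat,
      Polynomial.eval_one]
    omega
  · rintro ⟨⟨M, rm, rw⟩, -, h⟩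
    obtain ⟨h4, h5⟩ := h1 I (M, rm, rw) h
    exact ⟨h4, M, h5⟩

end Pool.Agent.W904.CES
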